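import Pool.Agent.H20.KH.Stmts
import Pool.Agent.H87.KG.THA

/-!
# Project KH, module TA2: the quadratic Poincare constant of uniformly log-concave measures
-/

set_option autoImplicit false

open MeasureTheory Set Filter Topology
open scoped ContDiff

namespace Pool.Agent.H45.KH

open Pool.Agent.H84 Pool.Agent.H84.Sym Pool.Agent.H84.Sym.P2x Pool.Agent.H19.KL Pool.Agent.H73.KG
open Pool.Agent.H20.KH Pool.Agent.H87.KG

section

variable {E : Type} [NormedAddCommGroup E] [InnerProductSpace ℝ E]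
    [FiniteDimensional ℝ E] [MeasurableSpace E] [BorelSpace E]

theorem TA2_cv (U ψ g : E → ℝ) (c : ℝ) : cv U (fun x => c * ψ x) g = c * cv U ψ g := by
  unfold Pool.Agent.H73.KG.cv
  have h1 : ∫ x, c * ψ x * g x ∂(mu U) = c * ∫ x, ψ x * g x ∂(mu U) := by
    rw [← integral_const_mul]
    congr 1
    funext x
    ring
  rw [h1, integral_const_mul]
  ring

theorem TA2_cv2 (U ψ g : E → ℝ) (c : ℝ) : cv U g (fun x => c * ψ x) = c * cv U g ψ := by
  unfold Pool.Agent.H73.KG.cv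
  have h1 : ∫ x, g x * (c * ψ x) ∂(mu U) = c * ∫ x, g x * ψ x ∂(mu U) := by
    rw [← integral_const_mul]
    congr 1
    funext x
    ring
  rw [h1, integral_const_mul]
  ring

theorem TA2_q2 (U ψ : E → ℝ) (c : ℝ) (u v : E) : q2 U (fun x => c * ψ x) u v = c * q2 U ψ u v :=
  TA2_cv U ψ _ c

/-- the main estimate for a normalised function -/
theorem TA2_main (CT CF : ℝ) (hCT : 1 ≤ CT) (hCF : 1 ≤ CF)
    (hT : ∀ (U : E → ℝ) (t : ℝ), BP U t →
      CovLe U 5 → ∀ (κ : Type) [Fintype κ] (e : κ → E), Orthonormal ℝ e → ∀ (m : κ → ℝ) (β : ℝ),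
      (∀ i, |m i| ≤ β) → 0 ≤ β → ∀ ψ : E → ℝ, GC ψ →
      |∑ i, m i * q2 U ψ (e i) (e i)| ≤
        CT * β * Real.sqrt (Fintype.card κ) * Real.sqrt (cv U ψ ψ))
    (hF : ∀ (U : E → ℝ) (t : ℝ), BP U t → t ≤ 1 → CovLe U 5 →
      ∀ (r : ℕ) (d : ℕ → ℕ) (e : ℕ → ℕ → E) (m : ℕ → ℕ → ℝ) (β Dd : ℕ → ℝ),
      Bk0 t r d e m β Dd → ∀ ψ : E → ℝ, GC ψ → cv U ψ ψ ≤ 1 →
      ∑ j ∈ Finset.range r, ∑ i ∈ Finset.range (d j), m j i * q2 U ψ (e j i) (e j i) ≤
        CF * Real.sqrt (∑ j ∈ Finset.range r, β j ^ 2 * Dd j) + CF * ∑ j ∈ Finset.range r,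
          β j * Real.sqrt (∑ i ∈ Finset.range j, (d i : ℝ)) / t ^ 2)
    (hSC : SC2Stmt E) (hNUM : NUMStmt) (τ : ℝ) (g : ℕ) (hτ : 0 < τ) (hτ1 : τ ≤ 1) (hg : 1 ≤ g)
    (hbig' : (256 : ℝ) * (1 + Nat.log 2 (Module.finrank ℝ E + 1)) ≤ 2 ^ g * τ ^ 7)
    (U : E → ℝ) (hU : BP U (τ / 2)) (hc : CovLe U 5) (ψ : E → ℝ) (hψ : GC ψ) (hψ1 : cv U ψ ψ ≤ 1)
    (ι : Type) [Fintype ι] (b : OrthonormalBasis ι ℝ E) :
    ∑ i, ∑ j, (q2 U ψ (b i) (b j)) ^ 2 ≤ 40 * (CT + CF) ^ 2 * g := by
  set CN : ℝ := CT + CF with hCN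
  have hCN1 : 1 ≤ CN := by linarith
  obtain ⟨e, m, h1, h3, h4, h5⟩ := hSC U (τ / 2) hU.1 ψ hψ
  set N := Module.finrank ℝ E with hN
  rw [h5 ι b]
  have hlog0 : (0:ℝ) ≤ Nat.log 2 (N + 1) := by positivity
  have h256 : (256 : ℝ) ≤ 2 ^ g * τ ^ 7 := by nlinarith
  have hsq1 : Real.sqrt (cv U ψ ψ) ≤ 1 := by
    exact (Real.sqrt_le_sqrt hψ1).trans_eq Real.sqrt_one
  -- orthonormality of subfamilies
  have hinner : ∀ i < N, ∀ j < N, inner ℝ (e i) (e j) = (if i = j then (1:ℝ) else 0) :=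
    fun i hi j hj => (h1 i hi j hj).1
  have ht3 : ∀ i < N, q2 U ψ (e i) (e i) = m i := by
    intro i hi
    have := (h1 i hi i hi).2
    rwa [if_pos rfl] at this
  have hortho : ∀ (s d : ℕ), s + d ≤ N → Orthonormal ℝ (fun i : Fin d => e (s + i)) := by
    intro s d hsd
    rw [orthonormal_iff_ite]
    intro i j
    have hi : s + (i:ℕ) < N := by have := i.2; omega
    have hj : s + (j:ℕ) < N := by have := j.2; omega
    rw [hinner _ hi _ hj]
    by_cases hij : i = j
    · subst hij; simp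
    · rw [if_neg hij, if_neg]
      intro h
      apply hij
      apply Fin.ext
      omega
  apply hNUM N g CN (τ / 2) m hg hCN1 (by linarith) (by linarith) h3 h4
  · intro l
    set d := min (2 ^ l) (N - (2 ^ l - 1)) with hd
    have hp : 0 < 2 ^ l := by positivity
    have hdN : 0 < d → 2 ^ l - 1 + d ≤ N := by omega
    rw [BB_eq m N h3 l, ← hd]
    rcases Nat.eq_zero_or_pos d with hd0 | hd0
    · rw [hd0]
      simp only [Finset.range_zero, Finset.sum_empty]
      positivity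
    · have hh := hT U (τ / 2) hU hc (Fin d) (fun i : Fin d => e (2 ^ l - 1 + i))
        (hortho _ _ (hdN hd0)) (fun i => m (2 ^ l - 1 + i)) |m (2 ^ l - 1)|
        (fun i => h4 _ _ (by omega)) (abs_nonneg _) ψ hψ
      have hs : ∑ i : Fin d, m (2 ^ l - 1 + i) * q2 U ψ (e (2 ^ l - 1 + i)) (e (2 ^ l - 1 + i)) =
          ∑ i ∈ Finset.range d, m (2 ^ l - 1 + i) ^ 2 := by
        rw [← Fin.sum_univ_eq_sum_range (fun i => m (2 ^ l - 1 + i) ^ 2) d]
        apply Finset.sum_congr rfl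
        intro i _
        rw [ht3 _ (by have := i.2; have := hdN hd0; omega)]
        ring
      rw [hs] at hh
      refine le_trans (le_abs_self _) (le_trans hh ?_)
      rw [Fintype.card_fin]
      have hq : Real.sqrt (d:ℝ) ≤ Real.sqrt (2 ^ l + 1) := by
        apply Real.sqrt_le_sqrt
        have : (d:ℝ) ≤ 2 ^ l := by exact_mod_cast (min_le_left _ _)
        linarith
      have hA : 0 ≤ CT * |m (2 ^ l - 1)| * Real.sqrt d := by positivity
      calc CT * |m (2 ^ l - 1)| * Real.sqrt d * Real.sqrt (cv U ψ ψ)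
          ≤ CT * |m (2 ^ l - 1)| * Real.sqrt d * 1 := mul_le_mul_of_nonneg_left hsq1 hA
        _ = CT * |m (2 ^ l - 1)| * Real.sqrt d := mul_one _
        _ ≤ CN * |m (2 ^ l - 1)| * Real.sqrt (2 ^ l + 1) := by
            apply mul_le_mul _ hq (Real.sqrt_nonneg _) (by positivity)
            apply mul_le_mul_of_nonneg_right _ (abs_nonneg _)
            linarith
  · intro a ha r
    set L : ℕ → ℕ := fun j => g + a + j * g with hL
    set d : ℕ → ℕ := fun j => min (2 ^ L j) (N - (2 ^ L j - 1)) with hd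
    have hp : ∀ j, 0 < 2 ^ L j := fun j => by positivity
    have hdN : ∀ j i, i < d j → 2 ^ L j - 1 + i < N := by
      intro j i hi
      simp only [hd] at hi
      have := hp j
      omega
    have hdL : ∀ j, (d j : ℝ) ≤ 2 ^ L j := by
      intro j
      exact_mod_cast (min_le_left _ _)
    have hsumd : ∀ j, ∑ i ∈ Finset.range j, (d i : ℝ) ≤ 2 ^ (a + j * g + 1) := by
      intro j
      have h0 := sum_blocks g a hg j
      have := Finset.sum_le_sum (s := Finset.range j) (fun i _ => hdL i)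
      simp only [hL] at this
      linarith
    have hblk : Bk0 (τ / 2) r d (fun j i => e (2 ^ L j - 1 + i))
        (fun j i => m (2 ^ L j - 1 + i)) (fun j => |m (2 ^ L j - 1)|) (fun j => 2 ^ L j) := by
      refine ⟨?_, ?_, ?_, ?_, ?_⟩
      · intro j _ i hi j' _ i' hi'
        rw [hinner _ (hdN j i hi) _ (hdN j' i' hi')]
        by_cases hh : j = j' ∧ i = i'
        · rw [if_pos hh, if_pos]
          rw [hh.1, hh.2]
        · rw [if_neg hh, if_neg]
          intro hc'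
          apply hh
          apply block_idx g a hg j i j' i' _ _ hc'
          · exact lt_of_lt_of_le hi (min_le_left _ _)
          · exact lt_of_lt_of_le hi' (min_le_left _ _)
      · intro j _ i _
        exact h4 _ _ (by omega)
      · intro j _
        exact abs_nonneg _
      · intro j _
        exact hdL j
      · intro j _
        refine le_trans (hsumd j) ?_
        have e1 : (2:ℝ) ^ L j * (τ / 2) ^ 7 = 2 ^ (a + j * g + 1) * (2 ^ g * τ ^ 7 / 256) := by
          simp only [hL]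
          rw [show g + a + j * g = (a + j * g) + g by ring, pow_add 2 (a + j * g) g,
            pow_add 2 (a + j * g) 1]
          ring
        rw [e1]
        have : (1:ℝ) ≤ 2 ^ g * τ ^ 7 / 256 := by linarith
        have h2p : (0:ℝ) < 2 ^ (a + j * g + 1) := by positivity
        nlinarith
    have hh := hF U (τ / 2) hU (by linarith) hc r d (fun j i => e (2 ^ L j - 1 + i))
      (fun j i => m (2 ^ L j - 1 + i)) (fun j => |m (2 ^ L j - 1)|) (fun j => 2 ^ L j) hblk ψ hψ
      hψ1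
    have hs : ∑ j ∈ Finset.range r, ∑ i ∈ Finset.range (d j), m (2 ^ L j - 1 + i) *
        q2 U ψ (e (2 ^ L j - 1 + i)) (e (2 ^ L j - 1 + i)) =
        ∑ j ∈ Finset.range r, BB m (L j) := by
      apply Finset.sum_congr rfl
      intro j _
      rw [BB_eq m N h3 (L j)]
      apply Finset.sum_congr rfl
      intro i hi
      rw [Finset.mem_range] at hi
      rw [ht3 _ (hdN j i hi)]
      ring
    rw [hs] at hh
    refine le_trans hh ?_
    apply add_le_add
    · apply mul_le_mul_of_nonneg_right _ (Real.sqrt_nonneg _)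
      linarith
    · apply mul_le_mul _ _ _ (by linarith)
      · linarith
      · apply Finset.sum_le_sum
        intro j _
        have h6 : Real.sqrt (∑ i ∈ Finset.range j, (d i : ℝ)) ≤
            Real.sqrt (2 ^ (a + j * g + 2)) := by
          apply Real.sqrt_le_sqrt
          refine le_trans (hsumd j) ?_
          exact pow_le_pow_right₀ (by norm_num) (by omega)
        have h7 : (0:ℝ) < (τ / 2) ^ 2 := by positivity
        apply div_le_div_of_nonneg_right _ h7.le
        exact mul_le_mul_of_nonneg_left h6 (abs_nonneg _)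
      · apply Finset.sum_nonneg
        intro j _
        positivity
  · have h9 : τ ^ 7 ≤ τ ^ 4 := pow_le_pow_of_le_one hτ.le hτ1 (by norm_num)
    have h10 : (2:ℝ) ^ g * τ ^ 7 ≤ 2 ^ g * τ ^ 4 :=
      mul_le_mul_of_nonneg_left h9 (by positivity)
    have h11 : (2:ℝ) ^ g * (τ / 2) ^ 4 = 2 ^ g * τ ^ 4 / 16 := by ring
    rw [h11]
    linarith

end

theorem ta2_thm
    (hBAS : ∀ (E : Type) [NormedAddCommGroup E] [InnerProductSpace ℝ E]
      [FiniteDimensional ℝ E] [MeasurableSpace E] [BorelSpace E], BASStmt E)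
    (hCV2 : ∀ (E : Type) [NormedAddCommGroup E] [InnerProductSpace ℝ E]
      [FiniteDimensional ℝ E] [MeasurableSpace E] [BorelSpace E], CV2Stmt E)
    (hSC2 : ∀ (E : Type) [NormedAddCommGroup E] [InnerProductSpace ℝ E]
      [FiniteDimensional ℝ E] [MeasurableSpace E] [BorelSpace E], SC2Stmt E)
    (hTM2 : TM2Stmt) (hCF2 : CF2Stmt) (hNUM : NUMStmt) : TA2Stmt := by
  obtain ⟨CT, hCT, hT⟩ := hTM2
  obtain ⟨CF, hCF, hF⟩ := hCF2
  refine ⟨40 * (CT + CF) ^ 2 + 256, by nlinarith [sq_nonneg (CT + CF)], ?_⟩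
  intro E _ _ _ _ _ τ g hτ hτ1 hg hbig
  have hC0 : (0:ℝ) ≤ 40 * (CT + CF) ^ 2 := by positivity
  have hg0 : (0:ℝ) ≤ g := by positivity
  apply hCV2 E τ _ hτ hτ1 (by positivity)
  intro U hU hc ψ hψ ι _ b
  have hbig' : (256 : ℝ) * (1 + Nat.log 2 (Module.finrank ℝ E + 1)) ≤ 2 ^ g * τ ^ 7 := by
    refine le_trans ?_ hbig
    apply mul_le_mul_of_nonneg_right
    · linarith
    · positivity
  have hv0 : 0 ≤ cv U ψ ψ := ((hBAS E).2.2.2.1 U (τ / 2) hU.1 ψ ψ hψ hψ).2.1
  have key := fun (ψ' : E → ℝ) (h1 : GC ψ') (h2 : cv U ψ' ψ' ≤ 1) =>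
    TA2_main CT CF hCT hCF (hT E) (hF E) (hSC2 E) hNUM τ g hτ hτ1 hg hbig' U hU hc ψ' h1 h2 ι b
  -- scaling by an arbitrary factor
  have hscale : ∀ c : ℝ, c ^ 2 * cv U ψ ψ ≤ 1 →
      c ^ 2 * ∑ i, ∑ j, (q2 U ψ (b i) (b j)) ^ 2 ≤ 40 * (CT + CF) ^ 2 * g := by
    intro c hc1
    have h1 := key (fun x => c * ψ x) ((GC.const c).mul hψ) (by
      rw [TA2_cv, TA2_cv2]
      calc c * (c * cv U ψ ψ) = c ^ 2 * cv U ψ ψ := by ring
        _ ≤ 1 := hc1)
    rw [Finset.mul_sum]
    refine le_trans (le_of_eq ?_) h1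
    apply Finset.sum_congr rfl
    intro i _
    rw [Finset.mul_sum]
    apply Finset.sum_congr rfl
    intro j _
    rw [TA2_q2]
    ring
  set S := ∑ i, ∑ j, (q2 U ψ (b i) (b j)) ^ 2 with hS
  have hS0 : 0 ≤ S := Finset.sum_nonneg (fun i _ => Finset.sum_nonneg (fun j _ => sq_nonneg _))
  have hA0 : (0:ℝ) ≤ 40 * (CT + CF) ^ 2 * g := by positivity
  rcases hv0.eq_or_lt with hv | hv
  · -- variance zero
    have h0 : S ≤ 0 := by
      by_contra hcon
      push Not at hcon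
      have h1 := hscale (Real.sqrt ((40 * (CT + CF) ^ 2 * g + 1) / S)) (by
        rw [← hv, mul_zero]
        norm_num)
      rw [Real.sq_sqrt (by positivity), div_mul_cancel₀ _ hcon.ne'] at h1
      linarith
    rw [← hv, mul_zero]
    exact h0
  · have h1 := hscale (Real.sqrt (1 / cv U ψ ψ)) (by
      rw [Real.sq_sqrt (by positivity), one_div_mul_cancel hv.ne'])
    rw [Real.sq_sqrt (by positivity), one_div_mul_eq_div, div_le_iff₀ hv] at h1
    refine h1.trans ?_
    apply mul_le_mul_of_nonneg_right _ hv0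
    nlinarith

end Pool.Agent.H45.KH
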